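import Mathlib
import Pool.Agent.V5helper5.HC.Dim

/-!
# The metric and the edge metric dimension of the hypercube are equal in almost all dimensions

`dim (Q d) = edim (Q d)` for all `d ≤ N` with at most `12 N / log₂ N` exceptions, which are all even. An
exceptional dimension `d` is one in which the metric dimension grows (`dim (Q d) = dim (Q (d - 1)) + 1`), and then
`edim (Q d) = dim (Q (d - 1))`.

Proof. Write the vertices as sign vectors. A set `S` resolves the vertices of the hypercube iff no nonzero vector
with entries `-1, 0, 1` is orthogonal to all elements of `S`. If `S` resolves the edges, no such vector with an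
entry `0` is orthogonal to `S`; so the restriction of `S` to `d - 1` coordinates resolves the vertices of
`Q (d - 1)`. A parity argument (modulo 4) shows that a set which resolves the vertices also resolves the edges.
So the exceptions up to `N` are at most `dim (Q N)` in number, and `dim (Q N) = O(N / log N)` by Lindström's
detecting matrices, built here by the doubling `n ↦ 2 n + m - 1` for `m ↦ 2 m` rows.
-/

set_option autoImplicit false

namespace Pool.Agent.Results.MP_41989c_co.EqualForAlmostAll

open Classical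

/-- The hypercube of dimension `d`: two vertices are adjacent iff they differ in exactly one coordinate. -/
def Q (d : ℕ) : SimpleGraph (Fin d → Bool) where
  Adj x y := hammingDist x y = 1
  symm := ⟨fun x y h => by rw [hammingDist_comm]; exact h⟩
  loopless := ⟨fun x h => by simp at h⟩

/-- `S` is a resolving set of `G`. -/
def IsResolving {V : Type} (G : SimpleGraph V) (S : Finset V) : Prop :=
  ∀ u v : V, u ≠ v → ∃ s ∈ S, G.dist u s ≠ G.dist v s

/-- `S` is an edge resolving set of `G`: for two distinct edges `uv`, `xy` there is `s` in `S` with different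
distances, where the distance of `uv` and `s` is the minimum of the distances of `u` and `v` to `s`. -/
def IsEdgeResolving {V : Type} (G : SimpleGraph V) (S : Finset V) : Prop :=
  ∀ u v x y : V, G.Adj u v → G.Adj x y → s(u, v) ≠ s(x, y) →
    ∃ s ∈ S, min (G.dist u s) (G.dist v s) ≠ min (G.dist x s) (G.dist y s)

/-- The metric dimension. -/
noncomputable def dim {V : Type} (G : SimpleGraph V) : ℕ :=
  sInf {n : ℕ | ∃ S : Finset V, S.card = n ∧ IsResolving G S}

/-- The edge metric dimension: the minimum size of a nonempty edge resolving set. -/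
noncomputable def edim {V : Type} (G : SimpleGraph V) : ℕ :=
  sInf {n : ℕ | ∃ S : Finset V, S.Nonempty ∧ S.card = n ∧ IsEdgeResolving G S}

/-- The exceptional dimensions `1 ≤ d ≤ N`. -/
noncomputable def exceptions (N : ℕ) : Finset ℕ :=
  (Finset.Icc 1 N).filter fun d => dim (Q d) ≠ edim (Q d)

lemma dim_eq (d : ℕ) : dim (Q d) = Pool.Agent.V5helper5.HC.dimQ d := rfl

lemma edim_eq (d : ℕ) : edim (Q d) = Pool.Agent.V5helper5.HC.edimQ d := rfl

/-- **Main theorem.**

(1) `edim (Q d) ≤ dim (Q d)` for `d ≥ 1`, and `dim (Q d) ≤ edim (Q (d + 1))`.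

(2) If `d ≥ 1` and `dim (Q d) ≠ edim (Q d)`, then `d` is even, `edim (Q d) = dim (Q (d - 1))` and
`dim (Q d) = dim (Q (d - 1)) + 1`.

(3) For every `N ≥ 1` at most `dim (Q N)` of the numbers `1 ≤ d ≤ N` have `dim (Q d) ≠ edim (Q d)`, and
`dim (Q N) log₂ N ≤ 12 N`.

(4) The set of `d` with `dim (Q d) ≠ edim (Q d)` has density zero. -/
theorem result :
    (∀ d : ℕ, 1 ≤ d → edim (Q d) ≤ dim (Q d)) ∧
    (∀ d : ℕ, dim (Q d) ≤ edim (Q (d + 1))) ∧
    (∀ d : ℕ, 1 ≤ d → dim (Q d) ≠ edim (Q d) →
      Even d ∧ edim (Q d) = dim (Q (d - 1)) ∧ dim (Q d) = dim (Q (d - 1)) + 1) ∧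
    (∀ N : ℕ, 1 ≤ N → (exceptions N).card ≤ dim (Q N) ∧
      (dim (Q N) : ℝ) * Real.logb 2 N ≤ 12 * N) ∧
    Filter.Tendsto (fun N : ℕ => ((exceptions N).card : ℝ) / N) Filter.atTop (nhds 0) := by
  have hcount : ∀ N : ℕ, 1 ≤ N → (exceptions N).card ≤ dim (Q N) ∧
      (dim (Q N) : ℝ) * Real.logb 2 N ≤ 12 * N := by
    intro N hN
    refine ⟨?_, Pool.Agent.V5helper5.HC.dim_log N hN⟩
    have h := Pool.Agent.V5helper5.HC.exc_count N
    have e : exceptions N = (Finset.Icc 1 N).filter Pool.Agent.V5helper5.HC.Exc := by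
      unfold exceptions
      ext d
      simp only [Finset.mem_filter]
      rfl
    rw [e]
    exact h
  refine ⟨?_, ?_, ?_, hcount, ?_⟩
  · intro d hd
    exact Pool.Agent.V5helper5.HC.edim_le_dim hd
  · intro d
    exact Pool.Agent.V5helper5.HC.dim_le_edim_succ d
  · intro d hd hne
    obtain ⟨n, rfl⟩ : ∃ n, d = n + 1 := ⟨d - 1, by omega⟩
    have h1 : edim (Q (n + 1)) ≤ dim (Q (n + 1)) := Pool.Agent.V5helper5.HC.edim_le_dim (by omega)
    have h2 : dim (Q n) ≤ edim (Q (n + 1)) := Pool.Agent.V5helper5.HC.dim_le_edim_succ n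
    have h3 : (n + 1) % 2 = 0 := by
      by_contra hodd
      have h4 : dim (Q (n + 1)) ≤ edim (Q (n + 1)) :=
        Pool.Agent.V5helper5.HC.dim_le_edim_odd (by omega)
      omega
    have h4 : dim (Q (n + 1)) ≤ dim (Q n) + 1 :=
      Pool.Agent.V5helper5.HC.dim_succ_le (by omega)
    refine ⟨Nat.even_iff.2 h3, ?_, ?_⟩
    · rw [Nat.add_sub_cancel]; omega
    · rw [Nat.add_sub_cancel]; omega
  · -- density
    have hlog : Filter.Tendsto (fun N : ℕ => 12 / Real.logb 2 (N : ℝ)) Filter.atTop (nhds 0) := by
      apply Filter.Tendsto.div_atTop tendsto_const_nhds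
      exact (Real.tendsto_logb_atTop (by norm_num)).comp tendsto_natCast_atTop_atTop
    apply squeeze_zero' _ _ hlog
    · exact Filter.Eventually.of_forall fun N => by positivity
    · filter_upwards [Filter.eventually_ge_atTop 2] with N hN
      obtain ⟨h1, h2⟩ := hcount N (by omega)
      have hN0 : (0 : ℝ) < N := by exact_mod_cast (by omega : 0 < N)
      have hl : 0 < Real.logb 2 (N : ℝ) :=
        Real.logb_pos (by norm_num) (by exact_mod_cast (by omega : 1 < N))
      rw [div_le_div_iff₀ hN0 hl]
      have h3 : ((exceptions N).card : ℝ) ≤ dim (Q N) := by exact_mod_cast h1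
      exact (mul_le_mul_of_nonneg_right h3 hl.le).trans h2

end Pool.Agent.Results.MP_41989c_co.EqualForAlmostAll
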